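import Pool.Agent.H500.AS.Stm

/-!
# Project AS (helper500), part 6: the conductor is supported at the ramified primes
-/

set_option autoImplicit false
set_option linter.unusedSectionVars false

namespace Pool.Agent.H650.AS.ARS

open NumberField IsDedekindDomain Pool.Agent.Q5.BR Pool.Agent.Q92.AR
open Pool.Agent.H500.AS

theorem cong_mono {F : Type} [Field F] [NumberField F] {a b : ℕ} (hab : a ∣ b) {x : F}
    (h : Cong b x) : Cong a x := by
  obtain ⟨k, rfl⟩ := hab
  intro v hv
  have h1 : ((a * k : ℕ) : 𝓞 F) ∈ v.asIdeal := by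
    rw [Nat.cast_mul]
    exact Ideal.mul_mem_right _ _ hv
  refine (h v h1).trans ?_
  rw [Nat.cast_mul, map_mul]
  have hk : v.valuation F (k : F) ≤ 1 := by
    have h2 := v.valuation_le_one (K := F) (k : 𝓞 F)
    simpa using h2
  calc v.valuation F (a : F) * v.valuation F (k : F) ≤ v.valuation F (a : F) * 1 :=
        mul_le_mul' le_rfl hk
    _ = v.valuation F (a : F) := mul_one _

theorem ray_mono {F : Type} [Field F] [NumberField F] {a b : ℕ} (hab : a ∣ b) {x : Fˣ}
    (h : x ∈ Ray F b) : x ∈ Ray F a :=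
  ⟨cong_mono hab h.1, h.2⟩

theorem dvd_pow_self_of_primes {g N : ℕ} (hg : g ≠ 0) (hN : N ≠ 0)
    (h : ∀ p : ℕ, p.Prime → p ∣ g → p ∣ N) : g ∣ N ^ g := by
  rw [← Nat.factorization_le_iff_dvd hg (pow_ne_zero g hN)]
  intro p
  rw [Nat.factorization_pow, Finsupp.smul_apply, smul_eq_mul]
  by_cases hp : p.Prime
  · by_cases hpg : p ∣ g
    · have h1 : 0 < N.factorization p := hp.factorization_pos_of_dvd hN (h p hp hpg)
      have h2 : g.factorization p < g := Nat.factorization_lt p hg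
      nlinarith
    · rw [Nat.factorization_eq_zero_of_not_dvd hpg]
      exact Nat.zero_le _
  · rw [Nat.factorization_eq_zero_of_not_prime g hp]
    exact Nat.zero_le _

theorem unrAt {F M : Type} [Field F] [NumberField F] [Field M] [NumberField M] [Algebra F M]
    {N p : ℕ} (hN : Ram F M N) (hp : p.Prime) (hpN : ¬ p ∣ N) : UnrAt F M p := by
  intro v hv
  by_contra hun
  have h1 := hN v hun
  have hco : Nat.Coprime p N := (Nat.Prime.coprime_iff_not_dvd hp).2 hpN
  have h2 : (1 : 𝓞 F) ∈ v.asIdeal := by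
    have h3 := Nat.isCoprime_iff_coprime.2 hco
    obtain ⟨a, b, hab⟩ := h3
    have h4 : (a : 𝓞 F) * (p : 𝓞 F) + (b : 𝓞 F) * (N : 𝓞 F) = 1 := by
      exact_mod_cast congrArg (Int.cast : ℤ → 𝓞 F) hab
    rw [← h4]
    exact v.asIdeal.add_mem (Ideal.mul_mem_left _ _ hv) (Ideal.mul_mem_left _ _ h1)
  exact v.isPrime.ne_top ((Ideal.eq_top_iff_one _).2 h2)

theorem main : S_ARp → S_RayMul → S_ARS := by
  intro hARp hRM F M _ _ _ _ _ _ ψ N hN hram
  obtain ⟨N₀, hN₀, -, hN₀r⟩ := recip F M ψ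
  have key : ∀ g : ℕ, g ≠ 0 → (∀ x ∈ Ray F g, art ψ (prin x) = 0) →
      ∃ e : ℕ, ∀ x ∈ Ray F (N ^ e), art ψ (prin x) = 0 := by
    intro g
    induction g using Nat.strong_induction_on with
    | _ g ih =>
      intro hg hgr
      by_cases hall : ∀ p : ℕ, p.Prime → p ∣ g → p ∣ N
      · exact ⟨g, fun x hx => hgr x (ray_mono (dvd_pow_self_of_primes hg hN hall) hx)⟩
      · push Not at hall
        obtain ⟨p, hp, hpg, hpN⟩ := hall
        obtain ⟨Np, hNp, hpNp, -, hNpr⟩ := hARp F M ψ p hp (unrAt hram hp hpN)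
        have hg' : Nat.gcd g Np ≠ 0 := Nat.gcd_ne_zero_left hg
        have hlt : Nat.gcd g Np < g := by
          refine lt_of_le_of_ne (Nat.gcd_le_left _ (Nat.pos_of_ne_zero hg)) ?_
          intro heq
          apply hpNp
          rw [← heq] at hpg
          exact hpg.trans (Nat.gcd_dvd_right _ _)
        refine ih _ hlt hg' ?_
        intro x hx
        obtain ⟨y, hy, y', hy', rfl⟩ := hRM F g Np hg hNp x hx
        rw [prin_mul, map_add, hgr y hy, hNpr y' hy', add_zero]
  exact key N₀ hN₀ hN₀r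

end Pool.Agent.H650.AS.ARS
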